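import Pool.Agent.Helper84.TL.Defs
import Pool.Agent.Helper45.TB.Lower
import Pool.Agent.Helper85.TB.Halves

/-!
# Project TL, module N: the log-sum inequality and the entropy inequality
-/

set_option autoImplicit false

namespace Pool.Agent.Helper84.TL

open Finset Pool.Agent.Lead.TB

theorem h55_cls_self {n : ℕ} {L : Fin n → Equiv.Perm (Fin n)} (hL : L ∈ ls n)
    (Y : Finset (Fin n)) : L ∈ cls L Y := by
  simp [cls, hL]

theorem h55_cls_eq {n : ℕ} {L L' : Fin n → Equiv.Perm (Fin n)} {Y : Finset (Fin n)}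
    (h : L' ∈ cls L Y) : cls L' Y = cls L Y := by
  simp only [cls, mem_filter] at h
  ext L''
  simp only [cls, mem_filter]
  constructor
  · rintro ⟨h1, h2⟩
    exact ⟨h1, fun s hs => (h2 s hs).trans (h.2 s hs)⟩
  · rintro ⟨h1, h2⟩
    exact ⟨h1, fun s hs => (h2 s hs).trans (h.2 s hs).symm⟩

/-- The log-sum inequality. -/
theorem log_sum {n : ℕ} (E : Finset (Fin n → Equiv.Perm (Fin n))) (hE : E ⊆ ls n)
    (S : Finset (Fin n)) :
    (E.card : ℝ) * Real.log (E.card / (ls n).card) ≤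
      ∑ L ∈ E, (Real.log ((E ∩ cls L S).card) - Real.log (cls L S).card) := by
  classical
  rcases E.eq_empty_or_nonempty with rfl | hne
  · simp
  have hEpos : (0 : ℝ) < E.card := by exact_mod_cast card_pos.2 hne
  have hlspos : (0 : ℝ) < (ls n).card := by exact_mod_cast card_pos.2 (hne.mono hE)
  set a : ℝ := (E.card : ℝ) / (ls n).card with ha
  have hapos : 0 < a := by positivity
  have key : ∑ L ∈ E, ((cls L S).card : ℝ) / ((E ∩ cls L S).card : ℝ) ≤ (ls n).card := by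
    calc ∑ L ∈ E, ((cls L S).card : ℝ) / ((E ∩ cls L S).card : ℝ)
        = ∑ L ∈ E, ∑ L' ∈ ls n, if L' ∈ cls L S then 1 / ((E ∩ cls L' S).card : ℝ) else 0 := by
          refine sum_congr rfl fun L hL => ?_
          rw [← sum_filter]
          have h0 : (ls n).filter (fun L' => L' ∈ cls L S) = cls L S := by
            ext L'
            simp only [mem_filter, cls]
            tauto
          rw [h0, sum_congr rfl (g := fun _ => 1 / ((E ∩ cls L S).card : ℝ))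
            (fun L' hL' => by rw [h55_cls_eq hL']), sum_const, nsmul_eq_mul]
          ring
      _ = ∑ L' ∈ ls n, ∑ L ∈ E, if L' ∈ cls L S then 1 / ((E ∩ cls L' S).card : ℝ) else 0 :=
          sum_comm
      _ ≤ ∑ L' ∈ ls n, (1 : ℝ) := by
          refine sum_le_sum fun L' hL' => ?_
          rw [← sum_filter]
          have h0 : E.filter (fun L => L' ∈ cls L S) = E ∩ cls L' S := by
            ext L
            simp only [mem_filter, mem_inter]
            constructor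
            · rintro ⟨h1, h2⟩
              exact ⟨h1, by rw [h55_cls_eq h2]; exact h55_cls_self (hE h1) S⟩
            · rintro ⟨h1, h2⟩
              exact ⟨h1, by rw [h55_cls_eq h2]; exact h55_cls_self hL' S⟩
          rw [h0, sum_const, nsmul_eq_mul]
          rcases Nat.eq_zero_or_pos (E ∩ cls L' S).card with h1 | h1
          · simp [h1]
          · have h2 : ((E ∩ cls L' S).card : ℝ) ≠ 0 := by exact_mod_cast h1.ne'
            rw [mul_one_div_cancel h2]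
      _ = (ls n).card := by simp
  have hpt : ∀ L ∈ E, Real.log a + 1 -
      a * (((cls L S).card : ℝ) / ((E ∩ cls L S).card : ℝ)) ≤
      Real.log ((E ∩ cls L S).card) - Real.log (cls L S).card := by
    intro L hL
    have h1 : (0 : ℝ) < (E ∩ cls L S).card := by
      exact_mod_cast card_pos.2 ⟨L, mem_inter.2 ⟨hL, h55_cls_self (hE hL) S⟩⟩
    have h2 : (0 : ℝ) < (cls L S).card := by
      exact_mod_cast card_pos.2 ⟨L, h55_cls_self (hE hL) S⟩
    have h4 : (0 : ℝ) < ((cls L S).card : ℝ) / ((E ∩ cls L S).card : ℝ) := div_pos h2 h1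
    have h3 := Real.log_le_sub_one_of_pos (mul_pos hapos h4)
    rw [Real.log_mul hapos.ne' h4.ne', Real.log_div h2.ne' h1.ne'] at h3
    linarith
  have hs := sum_le_sum hpt
  rw [sum_sub_distrib, sum_const, nsmul_eq_mul, ← mul_sum] at hs
  have h5 := mul_le_mul_of_nonneg_left key hapos.le
  have h6 : a * (ls n).card = E.card := by rw [ha]; field_simp
  nlinarith

/-! ### Averages -/

theorem h55_av_mono {n : ℕ} {M : Finset (Fin n)} {m : ℕ} {f h : Finset (Fin n) → ℝ}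
    (hfh : ∀ Y, Y ⊆ M → Y.card = m → f Y ≤ h Y) : av' M m f ≤ av' M m h := by
  unfold av'
  refine div_le_div_of_nonneg_right (sum_le_sum fun Y hY => ?_) (Nat.cast_nonneg _)
  rw [mem_powersetCard] at hY
  exact hfh Y hY.1 hY.2

theorem h55_av_congr {n : ℕ} {M : Finset (Fin n)} {m : ℕ} {f h : Finset (Fin n) → ℝ}
    (hfh : ∀ Y, Y ⊆ M → Y.card = m → f Y = h Y) : av' M m f = av' M m h :=
  le_antisymm (h55_av_mono fun Y h1 h2 => (hfh Y h1 h2).le)
    (h55_av_mono fun Y h1 h2 => (hfh Y h1 h2).ge)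

theorem h55_av_const {n : ℕ} {M : Finset (Fin n)} {m : ℕ} (hm : m ≤ M.card) (c : ℝ) :
    av' M m (fun _ => c) = c := by
  unfold av'
  rw [sum_const, card_powersetCard, nsmul_eq_mul]
  have : ((M.card.choose m : ℕ) : ℝ) ≠ 0 := by
    exact_mod_cast (Nat.choose_pos hm).ne'
  field_simp

theorem h55_av_add {n : ℕ} (M : Finset (Fin n)) (m : ℕ) (f h : Finset (Fin n) → ℝ) :
    av' M m (fun Y => f Y + h Y) = av' M m f + av' M m h := by
  unfold av'
  rw [sum_add_distrib, add_div]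

theorem h55_av_mul {n : ℕ} (M : Finset (Fin n)) (m : ℕ) (c : ℝ) (f : Finset (Fin n) → ℝ) :
    av' M m (fun Y => c * f Y) = c * av' M m f := by
  unfold av'
  rw [← mul_sum, mul_div_assoc]

theorem h55_av_sum {n : ℕ} {β : Type} (M : Finset (Fin n)) (m : ℕ) (S : Finset β)
    (f : β → Finset (Fin n) → ℝ) :
    av' M m (fun Y => ∑ b ∈ S, f b Y) = ∑ b ∈ S, av' M m (f b) := by
  unfold av'
  rw [sum_comm, sum_div]

/-! ### The cells of a Latin square -/

/-- The cells of `T₁ × T₂` are distributed among all the symbols. -/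
theorem h55_cells {n : ℕ} {L : Fin n → Equiv.Perm (Fin n)} (hL : L ∈ ls n)
    (T₁ T₂ : Finset (Fin n)) : cnt L T₁ T₂ univ = T₁.card * T₂.card := by
  classical
  have hinj : ∀ r, Function.Injective fun s => L s r := by
    intro r s s' h
    by_contra hne
    simp only [ls, fac, mem_filter] at hL
    exact hL.2.2 s s' hne r h
  have hbij : ∀ r, Function.Bijective fun s => L s r := fun r => Finite.injective_iff_bijective.1 (hinj r)
  unfold cnt
  have h1 : ∀ s : Fin n, (T₁.filter fun r => L s r ∈ T₂).card =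
      ∑ r ∈ T₁, if L s r ∈ T₂ then 1 else 0 := fun s => by rw [card_filter]
  simp_rw [h1]
  rw [sum_comm]
  have h2 : ∀ r ∈ T₁, ∑ s : Fin n, (if L s r ∈ T₂ then 1 else 0) = T₂.card := by
    intro r _
    rw [(hbij r).sum_comp (fun c => if c ∈ T₂ then 1 else 0)]
    simp
  rw [sum_congr rfl h2, sum_const, smul_eq_mul]

/-! ### The statements of the other modules -/

/-- The statement `sg_reg`. -/
def H55SgReg (n : ℕ) : Prop := ∀ L : Fin n → Equiv.Perm (Fin n), L ∈ ls n →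
  ∀ Y : Finset (Fin n), Reg Y.card (sg L Y)

/-- The statement `cls_empty`. -/
def H55ClsEmpty (n : ℕ) : Prop := ∀ L : Fin n → Equiv.Perm (Fin n), L ∈ ls n →
  (cls L ∅).card = 1

/-- The statement `cls_card`. -/
def H55ClsCard (n : ℕ) : Prop := ∀ L : Fin n → Equiv.Perm (Fin n), L ∈ ls n →
  ∀ Y : Finset (Fin n), (cls L Y).card = (fac (Fin Y.card) (sg L Y)).card

/-- The statement `gibbs_step`. -/
def H55GibbsStep (n : ℕ) : Prop := ∀ E : Finset (Fin n → Equiv.Perm (Fin n)), E ⊆ ls n →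
  ∀ Y : Finset (Fin n), (∀ L ∈ E, ∀ L' ∈ cls L Y, L' ∈ E) → ∀ s, s ∈ Y →
    ∑ L ∈ E, Real.log (cls L Y).card ≤
      ∑ L ∈ E, (cost Y.card (sg L Y) (L s) + Real.log (cls L (Y.erase s)).card)

/-- The statement `chain`. -/
def H55Chain (n : ℕ) : Prop := ∀ (M : Finset (Fin n)) (h : Finset (Fin n) → ℝ)
  (c : Finset (Fin n) → Fin n → ℝ), h ∅ = 0 →
  (∀ Y, Y ⊆ M → ∀ s ∈ Y, h Y ≤ c Y s + h (Y.erase s)) → ∀ m : ℕ, m ≤ M.card →
    av' M m h ≤ ∑ j ∈ Icc 1 m, av' M j (fun Y => (∑ s ∈ Y, c Y s) / j)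

/-- The statement `av_sum`. -/
def H55AvSum (n : ℕ) : Prop := ∀ (M : Finset (Fin n)) (f : Fin n → ℝ) (m : ℕ), m ≤ M.card →
  av' M m (fun Y => ∑ s ∈ Y, f s) = (m : ℝ) / M.card * ∑ s ∈ M, f s

/-- The statement `av_B`. -/
def H55AvB (n : ℕ) : Prop := ∀ L : Fin n → Equiv.Perm (Fin n), L ∈ ls n →
  ∀ M : Finset (Fin n), n ≤ 2 * (M.card - 1) → ∀ j : ℕ, 1 ≤ j → j ≤ M.card →
    av' M j (fun Y => (∑ s ∈ Y, ∑ v, (Bv (sg L Y) (L s) v : ℝ)) / j) ≤
      4 * (j : ℝ) ^ 2 + 2 * j * n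

/-- The statement `av_C`. -/
def H55AvC (n : ℕ) : Prop := ∀ L : Fin n → Equiv.Perm (Fin n), L ∈ ls n →
  ∀ M : Finset (Fin n), n ≤ 2 * (M.card - 1) → ∀ j : ℕ, 1 ≤ j → j ≤ M.card →
    av' M j (fun Y => (∑ s ∈ Y, ∑ v, (Cv (sg L Y) (L s) v : ℝ)) / j) ≤
      8 * (j : ℝ) ^ 3 + 4 * (j : ℝ) ^ 2

/-- The statement `gibbs_T`. -/
def H55GibbsT (n : ℕ) : Prop := ∀ T₁ T₂ T₃ Y : Finset (Fin n), Disjoint T₃ Y →
  T₃.card ≤ Y.card → 1 ≤ Y.card →
    ∑ L ∈ emp T₁ T₂ T₃, Real.log ((emp T₁ T₂ T₃ ∩ cls L (T₃ ∪ Y)).card) ≤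
      ∑ L ∈ emp T₁ T₂ T₃, (n * ∑ j ∈ Icc (Y.card + 1) (T₃.card + Y.card), Real.log (g j) -
        Real.log 2 * T₃.card / (T₃.card + Y.card : ℕ) * cnt L T₁ T₂ Y +
        Real.log (cls L Y).card)

/-! ### The entropy inequality -/

theorem h55_emp_sub {n : ℕ} (T₁ T₂ T₃ : Finset (Fin n)) : emp T₁ T₂ T₃ ⊆ ls n :=
  filter_subset _ _

/-- The lower bound for the size of a class. -/
theorem h55_cls_lower {n k : ℕ} (hreg : H55SgReg n) (hcard : H55ClsCard n)
    {L : Fin n → Equiv.Perm (Fin n)} (hL : L ∈ ls n) (S : Finset (Fin n)) (hS : S.card = 2 ^ k) :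
    n * Real.log (((2 ^ k).factorial : ℝ) ^ 2 / ((2 : ℝ) ^ k) ^ (2 ^ k)) ≤
      Real.log (cls L S).card := by
  have h1 := hreg L hL S
  have h2 := hcard L hL S
  rw [h2]
  rw [hS] at h1 ⊢
  have h3 := lower_of_halves (fun m G hG => halves G hG) (sg L S) h1
  rw [← Real.log_pow]
  exact Real.log_le_log (by positivity) h3

/-- The average cost of a symbol. -/
theorem h55_av_cost {n j : ℕ} (avB : H55AvB n) (avC : H55AvC n)
    {L : Fin n → Equiv.Perm (Fin n)} (hL : L ∈ ls n) (M : Finset (Fin n))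
    (hM : n ≤ 2 * (M.card - 1)) (hj : 1 ≤ j) (hjM : j ≤ M.card) :
    av' M j (fun Y => (∑ s ∈ Y, cost Y.card (sg L Y) (L s)) / j) ≤
      n * (Real.log j - 1 + 4 / j) +
        19 / (j : ℝ) ^ 2 * (4 * (j : ℝ) ^ 2 + 2 * j * n) +
        96 * Real.log j / (j : ℝ) ^ 3 * (8 * (j : ℝ) ^ 3 + 4 * (j : ℝ) ^ 2) := by
  have hj0 : (0 : ℝ) < j := by exact_mod_cast hj
  have hlog : 0 ≤ Real.log j := Real.log_nonneg (by exact_mod_cast hj)
  have h1 : av' M j (fun Y => (∑ s ∈ Y, cost Y.card (sg L Y) (L s)) / j) =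
      av' M j (fun Y => (n * (Real.log j - 1 + 4 / j) +
        19 / (j : ℝ) ^ 2 * ((∑ s ∈ Y, ∑ v, (Bv (sg L Y) (L s) v : ℝ)) / j)) +
        96 * Real.log j / (j : ℝ) ^ 3 * ((∑ s ∈ Y, ∑ v, (Cv (sg L Y) (L s) v : ℝ)) / j)) := by
    refine h55_av_congr fun Y _ hY => ?_
    rw [hY]
    unfold cost
    rw [sum_add_distrib, sum_const, hY, nsmul_eq_mul]
    simp_rw [sum_add_distrib, ← mul_sum]
    field_simp
    ring
  rw [h1, h55_av_add, h55_av_add, h55_av_const hjM,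
    h55_av_mul M j (19 / (j : ℝ) ^ 2) (fun Y => (∑ s ∈ Y, ∑ v, (Bv (sg L Y) (L s) v : ℝ)) / j),
    h55_av_mul M j (96 * Real.log j / (j : ℝ) ^ 3)
      (fun Y => (∑ s ∈ Y, ∑ v, (Cv (sg L Y) (L s) v : ℝ)) / j)]
  have h2 := mul_le_mul_of_nonneg_left (avB L hL M hM j hj hjM)
    (show (0 : ℝ) ≤ 19 / (j : ℝ) ^ 2 by positivity)
  have h3 := mul_le_mul_of_nonneg_left (avC L hL M hM j hj hjM)
    (show (0 : ℝ) ≤ 96 * Real.log j / (j : ℝ) ^ 3 by positivity)
  linarith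

theorem main_ineq_of {n : ℕ} (hreg : H55SgReg n) (hempty : H55ClsEmpty n)
    (hcard : H55ClsCard n) (gstep : H55GibbsStep n) (chain : H55Chain n) (avs : H55AvSum n)
    (avB : H55AvB n) (avC : H55AvC n) (gT : H55GibbsT n)
    {k m : ℕ} (T₁ T₂ T₃ : Finset (Fin n)) (hm : T₃.card + m = 2 ^ k)
    (hc : T₃.card ≤ m) (hm1 : 1 ≤ m) (hmn : T₃.card + m ≤ n) (hn : n + 2 + 2 * T₃.card ≤ 2 * n)
    (hne : (emp T₁ T₂ T₃).Nonempty) :
    Real.log (((emp T₁ T₂ T₃).card : ℝ) / (ls n).card) ≤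
      n * ∑ j ∈ Icc (m + 1) (2 ^ k), Real.log (g j) -
      Real.log 2 * T₃.card / (2 : ℝ) ^ k * (m / (n - T₃.card) * (T₁.card * T₂.card)) +
      ∑ j ∈ Icc 1 m, (n * (Real.log j - 1 + 4 / j) +
        19 / (j : ℝ) ^ 2 * (4 * (j : ℝ) ^ 2 + 2 * j * n) +
        96 * Real.log j / (j : ℝ) ^ 3 * (8 * (j : ℝ) ^ 3 + 4 * (j : ℝ) ^ 2)) -
      n * Real.log (((2 ^ k).factorial : ℝ) ^ 2 / ((2 : ℝ) ^ k) ^ (2 ^ k)) := by
  classical
  set E := emp T₁ T₂ T₃ with hEdef
  have hE : E ⊆ ls n := h55_emp_sub T₁ T₂ T₃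
  have hEpos : (0 : ℝ) < E.card := by exact_mod_cast card_pos.2 hne
  set M : Finset (Fin n) := T₃ᶜ with hMdef
  have hMcard : M.card = n - T₃.card := by rw [hMdef, card_compl, Fintype.card_fin]
  have hcn : T₃.card ≤ n := by omega
  have hMcard' : (M.card : ℝ) = n - T₃.card := by
    rw [hMcard, Nat.cast_sub hcn]
  have hmM : m ≤ M.card := by omega
  have hM2 : n ≤ 2 * (M.card - 1) := by omega
  have hcast : ((T₃.card + m : ℕ) : ℝ) = (2 : ℝ) ^ k := by
    rw [hm]; push_cast; rfl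
  -- the pointwise inequality
  have hpt : ∀ Y, Y ⊆ M → Y.card = m →
      (E.card : ℝ) * Real.log (E.card / (ls n).card) ≤
      (E.card : ℝ) * (n * ∑ j ∈ Icc (m + 1) (2 ^ k), Real.log (g j) -
        n * Real.log (((2 ^ k).factorial : ℝ) ^ 2 / ((2 : ℝ) ^ k) ^ (2 ^ k))) +
      (-(Real.log 2 * T₃.card / (2 : ℝ) ^ k)) * ∑ L ∈ E, (cnt L T₁ T₂ Y : ℝ) +
      ∑ L ∈ E, Real.log (cls L Y).card := by
    intro Y hYM hYc
    have hd : Disjoint T₃ Y := by
      rw [disjoint_left]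
      intro s hs hs'
      exact (mem_compl.1 (hYM hs')) hs
    have h1 := log_sum E hE (T₃ ∪ Y)
    have h2 := gT T₁ T₂ T₃ Y hd (by omega) (by omega)
    rw [← hEdef, hYc] at h2
    have h3 : ∀ L ∈ E, n * Real.log (((2 ^ k).factorial : ℝ) ^ 2 / ((2 : ℝ) ^ k) ^ (2 ^ k)) ≤
        Real.log (cls L (T₃ ∪ Y)).card := fun L hL =>
      h55_cls_lower hreg hcard (hE hL) (T₃ ∪ Y) (by rw [card_union_of_disjoint hd, hYc, hm])
    have h4 := sum_le_sum h3
    rw [sum_const, nsmul_eq_mul] at h4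
    rw [sum_sub_distrib] at h1
    rw [sum_add_distrib, sum_sub_distrib, sum_const, nsmul_eq_mul, ← mul_sum, hcast, hm] at h2
    nlinarith
  -- average over Y
  have hav := h55_av_mono hpt
  rw [h55_av_const hmM, h55_av_add, h55_av_add, h55_av_const hmM, h55_av_mul] at hav
  have hcnt : av' M m (fun Y => ∑ L ∈ E, (cnt L T₁ T₂ Y : ℝ)) =
      (E.card : ℝ) * (m / (n - T₃.card) * (T₁.card * T₂.card)) := by
    rw [h55_av_sum, sum_congr rfl (g := fun _ => (m / (n - T₃.card) * (T₁.card * T₂.card) : ℝ)),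
      sum_const, nsmul_eq_mul]
    intro L hL
    have h1 : (fun Y => (cnt L T₁ T₂ Y : ℝ)) =
        fun Y => ∑ s ∈ Y, ((T₁.filter fun r => L s r ∈ T₂).card : ℝ) := by
      funext Y
      unfold cnt
      push_cast
      rfl
    rw [h1, avs M _ m hmM, hMcard']
    congr 1
    have h2 := h55_cells (hE hL) T₁ T₂
    have h3 : cnt L T₁ T₂ T₃ = 0 := (mem_filter.1 hL).2
    have h4 : cnt L T₁ T₂ univ = cnt L T₁ T₂ T₃ + cnt L T₁ T₂ M := by
      unfold cnt
      rw [hMdef, sum_add_sum_compl]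
    rw [h3, zero_add] at h4
    rw [h4] at h2
    have h5 : (cnt L T₁ T₂ M : ℝ) = T₁.card * T₂.card := by rw [h2]; push_cast; ring
    rw [← h5]
    unfold cnt
    push_cast
    rfl
  have hchain : av' M m (fun Y => ∑ L ∈ E, Real.log (cls L Y).card) ≤
      (E.card : ℝ) * ∑ j ∈ Icc 1 m, (n * (Real.log j - 1 + 4 / j) +
        19 / (j : ℝ) ^ 2 * (4 * (j : ℝ) ^ 2 + 2 * j * n) +
        96 * Real.log j / (j : ℝ) ^ 3 * (8 * (j : ℝ) ^ 3 + 4 * (j : ℝ) ^ 2)) := by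
    refine (chain M (fun Y => ∑ L ∈ E, Real.log (cls L Y).card)
      (fun Y s => ∑ L ∈ E, cost Y.card (sg L Y) (L s)) ?_ ?_ m hmM).trans ?_
    · exact sum_eq_zero fun L hL => by rw [hempty L (hE hL)]; simp
    · intro Y hYM s hs
      have hcl : ∀ L ∈ E, ∀ L' ∈ cls L Y, L' ∈ E := by
        intro L hL L' hL'
        rw [cls, mem_filter] at hL'
        have h3 : cnt L T₁ T₂ T₃ = 0 := (mem_filter.1 hL).2
        refine mem_filter.2 ⟨hL'.1, ?_⟩
        rw [← h3]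
        unfold cnt
        refine sum_congr rfl fun t ht => ?_
        rw [hL'.2 t fun hY => (mem_compl.1 (hYM hY)) ht]
      have h := gstep E hE Y hcl s hs
      rw [sum_add_distrib] at h
      exact h
    · rw [mul_sum]
      refine sum_le_sum fun j hj => ?_
      rw [mem_Icc] at hj
      have h1 : (fun Y : Finset (Fin n) => (∑ s ∈ Y, ∑ L ∈ E, cost Y.card (sg L Y) (L s)) / (j : ℝ)) =
          fun Y => ∑ L ∈ E, (∑ s ∈ Y, cost Y.card (sg L Y) (L s)) / (j : ℝ) := by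
        funext Y
        rw [sum_comm, sum_div]
      rw [h1, h55_av_sum]
      calc _ ≤ ∑ L ∈ E, (n * (Real.log j - 1 + 4 / j) +
            19 / (j : ℝ) ^ 2 * (4 * (j : ℝ) ^ 2 + 2 * j * n) +
            96 * Real.log j / (j : ℝ) ^ 3 * (8 * (j : ℝ) ^ 3 + 4 * (j : ℝ) ^ 2)) :=
            sum_le_sum fun L hL => h55_av_cost avB avC (hE hL) M hM2 hj.1 (by omega)
        _ = _ := by rw [sum_const, nsmul_eq_mul]
  rw [hcnt] at hav
  have hfin : (E.card : ℝ) * Real.log (E.card / (ls n).card) ≤ (E.card : ℝ) *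
      (n * ∑ j ∈ Icc (m + 1) (2 ^ k), Real.log (g j) -
      Real.log 2 * T₃.card / (2 : ℝ) ^ k * (m / (n - T₃.card) * (T₁.card * T₂.card)) +
      ∑ j ∈ Icc 1 m, (n * (Real.log j - 1 + 4 / j) +
        19 / (j : ℝ) ^ 2 * (4 * (j : ℝ) ^ 2 + 2 * j * n) +
        96 * Real.log j / (j : ℝ) ^ 3 * (8 * (j : ℝ) ^ 3 + 4 * (j : ℝ) ^ 2)) -
      n * Real.log (((2 ^ k).factorial : ℝ) ^ 2 / ((2 : ℝ) ^ k) ^ (2 ^ k))) := by
    nlinarith
  exact le_of_mul_le_mul_left hfin hEpos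

end Pool.Agent.Helper84.TL
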