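import Pool.Agent.Helper55.TL.MainOf
import Pool.Agent.Helper46.TL.Cls
import Pool.Agent.Helper37.TL.Chain
import Pool.Agent.Helper72.TL.Cyc
import Pool.Agent.Helper90.TL.Avoid
import Pool.Agent.Helper5.TL.GibbsOf

/-!
# Project TL, module N: the entropy inequality, given the improved entropy bound
-/

set_option autoImplicit false

namespace Pool.Agent.Helper84.TL

open Finset Pool.Agent.Lead.TB

/-- The statement `imp`. -/
def H55Imp (n : ℕ) : Prop := ∀ j : ℕ, 1 ≤ j → ∀ G : Gr n, Reg j G →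
  ∑ σ ∈ pm G, Real.exp (-cost j G σ) ≤ 1

theorem main_ineq_of_imp {n : ℕ} (himp : H55Imp n)
    {k m : ℕ} (T₁ T₂ T₃ : Finset (Fin n)) (hm : T₃.card + m = 2 ^ k)
    (hc : T₃.card ≤ m) (hm1 : 1 ≤ m) (hmn : T₃.card + m ≤ n) (hn : n + 2 + 2 * T₃.card ≤ 2 * n)
    (hne : (emp T₁ T₂ T₃).Nonempty) :
    Real.log (((emp T₁ T₂ T₃).card : ℝ) / (ls n).card) ≤
      n * ∑ j ∈ Icc (m + 1) (2 ^ k), Real.log (g j) -
      Real.log 2 * T₃.card / (2 : ℝ) ^ k * (m / (n - T₃.card) * (T₁.card * T₂.card)) +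
      ∑ j ∈ Icc 1 m, (n * (Real.log j - 1 + 4 / j) +
        19 / (j : ℝ) ^ 2 * (4 * (j : ℝ) ^ 2 + 2 * j * n) +
        96 * Real.log j / (j : ℝ) ^ 3 * (8 * (j : ℝ) ^ 3 + 4 * (j : ℝ) ^ 2)) -
      n * Real.log (((2 ^ k).factorial : ℝ) ^ 2 / ((2 : ℝ) ^ k) ^ (2 ^ k)) :=
  main_ineq_of (fun _ hL Y => sg_reg hL Y) (fun _ hL => cls_empty hL) (fun _ hL Y => cls_card hL Y)
    (fun E hE Y hcl s hs => gibbs_step_of E hE Y hcl hs
      (himp Y.card (card_pos.2 ⟨s, hs⟩)))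
    (fun M h c h0 hstep _ hm => chain M h c h0 hstep hm) (fun M f _ hm => av_sum M f hm)
    (fun _ hL M hM _ hj hjM => av_B hL M hM hj hjM) (fun _ hL M hM _ hj hjM => av_C hL M hM hj hjM)
    (fun T₁ T₂ T₃ Y hd hc hY => gibbs_T T₁ T₂ T₃ Y hd hc hY) T₁ T₂ T₃ hm hc hm1 hmn hn hne

end Pool.Agent.Helper84.TL
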